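import Mathlib
import Pool.Agent.R621.HS.Ban3

set_option autoImplicit false

/-!
# Uniform categoricity within computable families does not imply uniform categoricity
-/

namespace Pool.Agent.Results.MP_dc84f7_lc.FamilyNotUniform

open Pool.Agent.R621.HS

/-- The structure `A` is computable: its atomic diagram is computable. -/
def IsComputable (A : SStr) : Prop := ∃ e, DiagIndex e A

/-- `A` and `B` are isomorphic. -/
def Isom (A B : SStr) : Prop := ∃ f : ℕ → ℕ, IsoMap A B f

/-- A check of the definition: this is isomorphism by a bijection between the universes. -/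
theorem isom_iff (A B : SStr) : Isom A B ↔ SIso A B := by
  classical
  constructor
  · rintro ⟨f, hf⟩
    refine ⟨Equiv.ofBijective (fun x => ⟨f x.1, hf.maps x.1 x.2⟩) ⟨fun x y h => ?_, fun y => ?_⟩,
      fun i x y => hf.rel i x.1 y.1 x.2 y.2⟩
    · exact Subtype.ext (hf.inj _ _ x.2 y.2 (Subtype.ext_iff.1 h))
    · obtain ⟨x, hx, hxy⟩ := hf.surj y.1 y.2
      exact ⟨⟨x, hx⟩, Subtype.ext hxy⟩
  · rintro ⟨f, hf⟩
    refine ⟨fun x => if h : A.U x then (f ⟨x, h⟩).1 else 0, fun x hx => ?_, fun x y hx hy h => ?_,
      fun y hy => ?_, fun i x y hx hy => ?_⟩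
    · rw [dif_pos hx]
      exact (f ⟨x, hx⟩).2
    · rw [dif_pos hx, dif_pos hy] at h
      exact Subtype.ext_iff.1 (f.injective (Subtype.ext h))
    · refine ⟨(f.symm ⟨y, hy⟩).1, (f.symm ⟨y, hy⟩).2, ?_⟩
      rw [dif_pos (f.symm ⟨y, hy⟩).2]
      simp
    · rw [dif_pos hx, dif_pos hy]
      exact hf i ⟨x, hx⟩ ⟨y, hy⟩

/-- The structure `A` is uniformly `d`-computably categorical: there is a partial `d`-computable
function `g` such that, whenever the partial computable function with index `e` is the
characteristic function of the atomic diagram of a structure `B` isomorphic to `A`, the map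
`x ↦ g(e, x)` is defined on the universe of `A` and is an isomorphism from `A` onto `B`. -/
def UnifCat (A : SStr) (d : ℕ → ℕ) : Prop :=
  ∃ g : ℕ →. ℕ, Nat.RecursiveIn {(d : ℕ →. ℕ)} g ∧
    ∀ (e : ℕ) (B : SStr), DiagIndex e B → Isom A B →
      ∃ f : ℕ → ℕ, IsoMap A B f ∧ ∀ x, A.U x → g (Nat.pair e x) = Part.some (f x)

/-- The computable function `c` lists indices of the members of a uniformly computable collection
of copies of `A`. -/
def IsCollection (A : SStr) (c : ℕ → ℕ) : Prop :=
  Computable c ∧ ∀ i, ∃ B, DiagIndex (c i) B ∧ Isom A B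

/-- The structure `A` is uniformly `d`-computably categorical within the collection given by `c`:
there is a total `d`-computable function `h` such that `x ↦ h(i, x)` is an isomorphism from `A`
onto the `i`-th member of the collection, for all `i`. -/
def UnifCatWithin (A : SStr) (d c : ℕ → ℕ) : Prop :=
  ∃ h : ℕ → ℕ, Nat.RecursiveIn {(d : ℕ →. ℕ)} (h : ℕ →. ℕ) ∧
    ∀ (i : ℕ) (B : SStr), DiagIndex (c i) B → IsoMap A B fun x => h (Nat.pair i x)

/-- There are a computable structure `A` and a Turing degree, the degree of `d`, such that `A` is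
not uniformly `d`-computably categorical, but it is uniformly `d`-computably categorical within
every uniformly computable collection of its copies. -/
theorem result : ∃ (A : SStr) (d : ℕ → ℕ), IsComputable A ∧ ¬ UnifCat A d ∧
    ∀ c : ℕ → ℕ, IsCollection A c → UnifCatWithin A d c := by
  obtain ⟨d, h1, h2⟩ := exists_degree
  obtain ⟨e, _, he⟩ := exists_dindex (β := ℕ) (M := fun _ => A1)
    (Pool.Agent.Helper941.IsoProb.computablePred_comp
      (P := fun q : ℕ × ℕ × ℕ => A1 q.1 q.2.1 q.2.2) a1_comp Computable.snd)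
  exact ⟨full A1, d, ⟨e 0, he 0⟩, h1, fun c hc => h2 c hc.1 hc.2⟩

end Pool.Agent.Results.MP_dc84f7_lc.FamilyNotUniform
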